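import Mathlib
import Pool.Agent.H418R3.BHAlg
import Pool.Agent.H418R3.Gauss

/-!
# The Brumfiel-Hilden conjecture on the knot longitude

`bh_general` (file `Pool.Agent.H418R3.BHAlg`) proves: if `π` is a finitely generated group which is
normally generated by `m`, and `l` commutes with `m`, then the image `Y` of `l` in `H[π]` lies in
the subalgebra generated by `H⁺[π]` and `X, X⁻¹`, `X` the image of `m`.

Idea.  Write `x = X - X⁻¹`, `y = Y - Y⁻¹`.  For every `g` the element
`σ g = tr (g m) - tr (g m⁻¹)` of `H⁺` satisfies `σ g * y = σ' g * x` with `σ' g` in `H⁺`, because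
`x` and `y` commute.  So `Y` lies in `H⁺ + H⁺ X` locally at every maximal ideal `n` of `H⁺` not
containing all `σ g`.  If `n` contains all `σ g`, then `n` is the character of a representation
with values in `{1, -1}`, and modulo `n` the finitely generated `H⁺`-module `H[π]` is spanned by
`1` and `X`; by Nakayama's lemma `H[π] = H⁺ + H⁺ X` locally at `n`.

Here it is applied to knot groups, given by the Wirtinger presentation of a knot diagram.
-/

namespace Pool.Agent.Results.MP_db0b5c_gt.BrumfielHilden

open Pool.Agent.H418R3

/-- **The Brumfiel-Hilden conjecture holds for every knot.**  Let `D` be an oriented knot diagram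
(signed Gauss code), `D.KnotGroup` its Wirtinger group, `D.meridian` and `D.longitude` the standard
peripheral pair, and let `π` be any group identified with the knot group by an isomorphism `e`.
With `m = e D.meridian` and `l = e D.longitude`, the image `Y` of `l` in `H[π]` lies in the
subalgebra `H⁺[X, X⁻¹]` generated by `H⁺[π]` and the images `X`, `X⁻¹` of `m`, `m⁻¹`. -/
theorem result (D : GaussDiagram) (π : Type*) [Group π] (e : D.KnotGroup ≃* π) :
    bhOf π (e D.longitude) ∈
      Algebra.adjoin ℂ ((bhPlus π : Set (BHAlg π)) ∪
        {bhOf π (e D.meridian), bhOf π (e D.meridian)⁻¹}) := by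
  have : Group.FG π := Group.fg_of_surjective (f := e.toMonoidHom) e.surjective
  refine bh_general π (e D.meridian) (e D.longitude) ?_ ?_
  · have h1 := Subgroup.map_normalClosure ({D.meridian} : Set D.KnotGroup) e.toMonoidHom
      e.surjective
    rw [D.normalClosure_meridian, Subgroup.map_top_of_surjective _ e.surjective,
      Set.image_singleton] at h1
    exact h1.symm
  · exact D.commute_longitude.map e

end Pool.Agent.Results.MP_db0b5c_gt.BrumfielHilden
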